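import Pool.Agent.Q51.LW.SharpAs

/-!
# Exact independence of limited order in windows
-/

namespace Pool.Agent.Q51.LW

open Finset MeasureTheory Filter Pool.Agent.Q51.LI

variable {Ω : Type} [MeasurableSpace Ω]

/-- The events `E n`, `Y ≤ n ≤ X`, are measurable, and for every set `S` of at most `k` integers `n` with `Y ≤ n ≤ X` the
probability that all `E n`, `n ∈ S`, occur is `∏ 1 / log n`. -/
def IsRandomSetIn (P : Measure Ω) (k Y X : ℕ) (E : ℕ → Set Ω) : Prop :=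
  (∀ n ∈ Icc Y X, MeasurableSet (E n)) ∧
    ∀ S : Finset ℕ, S ⊆ Icc Y X → S.card ≤ k → P.real (⋂ n ∈ S, E n) = ∏ n ∈ S, 1 / Real.log n

lemma IsRandomSetIn.near {P : Measure Ω} {k k' Y X : ℕ} {η : ℝ} {E : ℕ → Set Ω} (h : IsRandomSetIn P k Y X E)
    (hk : k' ≤ k) (hη : 0 ≤ η) : IsNearlyRandomSet P k' Y X η E := by
  refine ⟨h.1, fun S hS hc => ?_⟩
  rw [h.2 S hS (hc.trans hk), sub_self, abs_zero]
  refine mul_nonneg hη (prod_nonneg fun n _ => ?_)
  exact div_nonneg zero_le_one (Real.log_natCast_nonneg n)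

/-- Order of magnitude of the largest gap, for exact independence of order `15 log X` in the windows `[√X, X]`. -/
theorem ae_order {P : Measure Ω} [IsProbabilityMeasure P] (E : ℕ → Set Ω) (k : ℕ → ℕ)
    (h : ∀ᶠ X : ℕ in atTop, 15 * Real.log X ≤ k X ∧ IsRandomSetIn P (k X) (Nat.sqrt X) X E) :
    ∀ᵐ ω ∂P, ∀ᶠ X : ℕ in atTop, HasGap E X (Real.log X ^ 2 / 200) ω ∧ ¬ HasGap E X (24 * Real.log X ^ 2) ω := by
  have h1 : ∀ᶠ X : ℕ in atTop, IsNearlyRandomSet P ⌈15 * Real.log X⌉₊ (Nat.sqrt X) X ((X : ℝ) ^ (-4 : ℝ)) E := by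
    filter_upwards [h] with X hX
    exact hX.2.near (Nat.ceil_le.2 hX.1) (by positivity)
  filter_upwards [ae_sharp E h1] with ω hω
  filter_upwards [hω (1 / 2) (by norm_num)] with X hX
  refine ⟨hX.1.mono le_rfl ?_, fun hg => hX.2 (hg.mono le_rfl ?_)⟩
  · nlinarith [sq_nonneg (Real.log X)]
  · nlinarith [sq_nonneg (Real.log X)]

end Pool.Agent.Q51.LW
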