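import Pool.Agent.Q51.LI.Near

/-!
# Random sets with approximate independence of limited order in a window
-/

namespace Pool.Agent.Q51.LW

open Finset MeasureTheory Filter Pool.Agent.Q51.LI

variable {Ω : Type} [MeasurableSpace Ω]

/-- The events `E n`, `Y ≤ n ≤ X`, are measurable, and for every set `S` of at most `k` integers `n` with `Y ≤ n ≤ X` the
probability that all `E n`, `n ∈ S`, occur is `∏ 1 / log n`, up to the relative error `η`. -/
def IsNearlyRandomSet (P : Measure Ω) (k Y X : ℕ) (η : ℝ) (E : ℕ → Set Ω) : Prop :=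
  (∀ n ∈ Icc Y X, MeasurableSet (E n)) ∧
    ∀ S : Finset ℕ, S ⊆ Icc Y X → S.card ≤ k →
      |P.real (⋂ n ∈ S, E n) - ∏ n ∈ S, 1 / Real.log n| ≤ η * ∏ n ∈ S, 1 / Real.log n

variable {P : Measure Ω} {k Y X : ℕ} {η : ℝ} {E : ℕ → Set Ω}

lemma nmeas_inter (hE : IsNearlyRandomSet P k Y X η E) {T : Finset ℕ} (hT : T ⊆ Icc Y X) :
    MeasurableSet (⋂ n ∈ T, E n) :=
  Finset.measurableSet_biInter T fun n hn => hE.1 n (hT hn)

lemma nmeas_void (hE : IsNearlyRandomSet P k Y X η E) {T : Finset ℕ} (hT : T ⊆ Icc Y X) :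
    MeasurableSet (void E T) := by
  have : void E T = ⋂ n ∈ T, (E n)ᶜ := by
    ext ω
    simp [void]
  rw [this]
  exact Finset.measurableSet_biInter T fun n hn => (hE.1 n (hT hn)).compl

lemma nint_el [IsProbabilityMeasure P] (hE : IsNearlyRandomSet P k Y X η E) {S : Finset ℕ} (hS : S ⊆ Icc Y X) (j : ℕ) :
    Integrable (fun ω => el (ind E ω) S j) P := by
  unfold el
  refine integrable_finsetSum _ fun T hT => ?_
  have hT' : T ⊆ Icc Y X := (mem_powersetCard.1 hT).1.trans hS
  simp_rw [prod_ind]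
  exact (integrable_const (1 : ℝ)).indicator (nmeas_inter hE hT')

lemma near_el [IsProbabilityMeasure P] (hE : IsNearlyRandomSet P k Y X η E) {S : Finset ℕ} (hS : S ⊆ Icc Y X) {j : ℕ}
    (hj : j ≤ k) : |∫ ω, el (ind E ω) S j ∂P - el pr S j| ≤ η * el pr S j := by
  have h1 : ∫ ω, el (ind E ω) S j ∂P = ∑ T ∈ powersetCard j S, P.real (⋂ n ∈ T, E n) := by
    unfold el
    rw [integral_finsetSum]
    · refine sum_congr rfl fun T hT => ?_
      have hT' : T ⊆ Icc Y X := (mem_powersetCard.1 hT).1.trans hS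
      simp_rw [prod_ind]
      rw [integral_indicator (nmeas_inter hE hT'), setIntegral_const, smul_eq_mul, mul_one]
    · intro T hT
      have hT' : T ⊆ Icc Y X := (mem_powersetCard.1 hT).1.trans hS
      simp_rw [prod_ind]
      exact (integrable_const (1 : ℝ)).indicator (nmeas_inter hE hT')
  rw [h1]
  unfold el
  rw [← sum_sub_distrib, mul_sum]
  refine (abs_sum_le_sum_abs _ _).trans (sum_le_sum fun T hT => ?_)
  exact hE.2 T ((mem_powersetCard.1 hT).1.trans hS) (by rw [(mem_powersetCard.1 hT).2]; exact hj)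

/-- The probability that the random set avoids `S`, with approximate independence. -/
theorem nvoid_near [IsProbabilityMeasure P] (hY : 3 ≤ Y) (hk : 1 ≤ k) (h0 : 0 ≤ η) (h1 : η ≤ 1) (hE : IsNearlyRandomSet P k Y X η E)
    {S : Finset ℕ} (hS : S ⊆ Icc Y X) (t : ℝ) (ht : 0 < t) :
    |P.real (void E S) - ∏ n ∈ S, (1 - pr n)| ≤
      3 * (Real.exp (t * ∑ n ∈ S, pr n) / t ^ k) + η * Real.exp (∑ n ∈ S, pr n) := by
  have hpr : ∀ n ∈ S, 0 ≤ pr n ∧ pr n ≤ 1 := fun n hn => by
    have := pr_mem (hY.trans (mem_Icc.1 (hS hn)).1)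
    exact ⟨this.1.le, this.2.le⟩
  obtain ⟨K, rfl⟩ : ∃ K, k = K + 1 := ⟨k - 1, by omega⟩
  have hb1 := B_near pr S hpr K
  have iB : Integrable (fun ω => B (ind E ω) S K) P := by
    unfold B
    exact integrable_finsetSum _ fun j _ => (nint_el hE hS j).const_mul _
  have e1 : P.real (void E S) = ∫ ω, ∏ n ∈ S, (1 - ind E ω n) ∂P := by
    simp_rw [prod_one_sub_ind]
    rw [integral_indicator (nmeas_void hE hS), setIntegral_const, smul_eq_mul, mul_one]
  have i1 : Integrable (fun ω => ∏ n ∈ S, (1 - ind E ω n)) P := by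
    simp_rw [prod_one_sub_ind]
    exact (integrable_const (1 : ℝ)).indicator (nmeas_void hE hS)
  have hb2 : |∫ ω, B (ind E ω) S K ∂P - P.real (void E S)| ≤ 2 * el pr S (K + 1) := by
    rw [e1, ← integral_sub iB i1]
    have h2 : |∫ ω, (B (ind E ω) S K - ∏ n ∈ S, (1 - ind E ω n)) ∂P| ≤ ∫ ω, el (ind E ω) S (K + 1) ∂P := by
      refine (abs_integral_le_integral_abs).trans (integral_mono_of_nonneg ?_ (nint_el hE hS _) ?_)
      · exact Filter.Eventually.of_forall fun ω => abs_nonneg _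
      · exact Filter.Eventually.of_forall fun ω => B_near (ind E ω) S (fun n _ => ind_mem E ω n) K
    have h3 := (abs_le.1 (near_el hE hS (j := K + 1) le_rfl)).2
    have h4 := el_nonneg pr S (fun n hn => (hpr n hn).1) (K + 1)
    nlinarith
  have hb3 : |∫ ω, B (ind E ω) S K ∂P - B pr S K| ≤ η * Real.exp (∑ n ∈ S, pr n) := by
    have e2 : ∫ ω, B (ind E ω) S K ∂P = ∑ j ∈ range (K + 1), (-1) ^ j * ∫ ω, el (ind E ω) S j ∂P := by
      unfold B
      rw [integral_finsetSum _ fun j _ => (nint_el hE hS j).const_mul _]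
      exact sum_congr rfl fun j _ => integral_const_mul _ _
    have e3 : ∫ ω, B (ind E ω) S K ∂P - B pr S K =
        ∑ j ∈ range (K + 1), (-1) ^ j * (∫ ω, el (ind E ω) S j ∂P - el pr S j) := by
      rw [e2]
      unfold B
      rw [← sum_sub_distrib]
      exact sum_congr rfl fun j _ => by ring
    rw [e3]
    refine (abs_sum_le_sum_abs _ _).trans ?_
    have h5 : ∀ j ∈ range (K + 1), |(-1) ^ j * (∫ ω, el (ind E ω) S j ∂P - el pr S j)| ≤ η * el pr S j := by
      intro j hj
      rw [abs_mul, abs_pow, abs_neg, abs_one, one_pow, one_mul]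
      exact near_el hE hS (by have := mem_range.1 hj; omega)
    refine (sum_le_sum h5).trans ?_
    rw [← mul_sum]
    refine mul_le_mul_of_nonneg_left ?_ h0
    refine (sum_el_le pr S (fun n hn => (hpr n hn).1) K).trans ?_
    rw [Real.exp_sum]
    refine prod_le_prod (fun n hn => by linarith [(hpr n hn).1]) fun n _ => ?_
    linarith [Real.add_one_le_exp (pr n)]
  have h6 := el_le pr S (fun n hn => (hpr n hn).1) (K + 1) t ht
  have a1 := abs_le.1 hb1
  have a2 := abs_le.1 hb2
  have a3 := abs_le.1 hb3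
  rw [abs_le]
  constructor <;> linarith [a1.1, a1.2, a2.1, a2.2, a3.1, a3.2]

end Pool.Agent.Q51.LW
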