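import Pool.Agent.Q51.LI.Sharp
import Pool.Agent.Q51.LW.Near

/-!
# The constant in Cramér's model with approximate independence of limited order in a window
-/

namespace Pool.Agent.Q51.LW

open Finset MeasureTheory Filter Pool.Agent.Q51.LI

variable {Ω : Type} [MeasurableSpace Ω] {P : Measure Ω} {k Y X : ℕ} {η : ℝ} {E : ℕ → Set Ω}

/-- The random set has two consecutive elements in `[Y, X]` at distance at least `H`. -/
def HasGapIn (E : ℕ → Set Ω) (Y X : ℕ) (H : ℝ) (ω : Ω) : Prop :=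
  ∃ a b : ℕ, Y ≤ a ∧ a < b ∧ b ≤ X ∧ ω ∈ E a ∧ ω ∈ E b ∧ (∀ c, a < c → c < b → ω ∉ E c) ∧ H ≤ (b : ℝ) - a

lemma nvoid_le [IsProbabilityMeasure P] (hY : 3 ≤ Y) (hk : 1 ≤ k) (h0 : 0 ≤ η) (h1 : η ≤ 1) (hE : IsNearlyRandomSet P k Y X η E)
    {S : Finset ℕ} (hS : S ⊆ Icc Y X) (T : ℝ) (hT0 : 0 ≤ T) (hT : T ≤ ∑ n ∈ S, pr n) :
    P.real (void E S) ≤ Real.exp (-T) + 3 * Real.exp (2.72 * (T + 1) - k) + η * Real.exp (T + 1) := by
  obtain ⟨S', hS', h2, h3⟩ := exists_part pr S (fun n hn => by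
    have := pr_mem (hY.trans (mem_Icc.1 (hS hn)).1)
    exact ⟨this.1.le, this.2.le⟩) T hT hT0
  have h4 : P.real (void E S) ≤ P.real (void E S') := by
    refine measureReal_mono ?_ (measure_ne_top _ _)
    intro ω hω n hn
    exact hω n (hS' hn)
  have h5 := nvoid_near hY hk h0 h1 hE (hS'.trans hS) (Real.exp 1) (Real.exp_pos 1)
  have h6 : ∏ n ∈ S', (1 - pr n) ≤ Real.exp (-T) := by
    refine le_trans ?_ (Real.exp_le_exp.2 (neg_le_neg h2))
    rw [← sum_neg_distrib, Real.exp_sum]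
    refine prod_le_prod (fun n hn => ?_) fun n hn => ?_
    · have := (pr_mem (hY.trans (mem_Icc.1 (hS (hS' hn))).1)).2
      linarith
    · have := Real.add_one_le_exp (-pr n)
      linarith
  have he : Real.exp 1 < 2.7182818286 := Real.exp_one_lt_d9
  have h7 : Real.exp (Real.exp 1 * ∑ n ∈ S', pr n) / Real.exp 1 ^ k ≤ Real.exp (2.72 * (T + 1) - k) := by
    rw [← Real.exp_nat_mul, ← Real.exp_sub]
    apply Real.exp_le_exp.2
    have h8 : Real.exp 1 * ∑ n ∈ S', pr n ≤ 2.72 * (T + 1) :=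
      mul_le_mul (by linarith) h3 (by linarith) (by norm_num)
    rw [mul_one]
    linarith
  have h9 : η * Real.exp (∑ n ∈ S', pr n) ≤ η * Real.exp (T + 1) :=
    mul_le_mul_of_nonneg_left (Real.exp_le_exp.2 h3) h0
  have := (abs_le.1 h5).2
  linarith

lemma sum_pr_ge {S : Finset ℕ} (hY : 3 ≤ Y) (hS : S ⊆ Icc Y X) (hX : 3 ≤ X) : (S.card : ℝ) / Real.log X ≤ ∑ n ∈ S, pr n :=
  Pool.Agent.Q51.LI.sum_pr_ge (hS.trans (Icc_subset_Icc_left hY)) hX

/-- **The upper bound with the constant.** -/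
theorem sharp_upper [IsProbabilityMeasure P] (hY : 3 ≤ Y) {δ : ℝ} (hδ : 0 < δ) (hδ' : δ ≤ 1 / 4) (hL0 : 10 ^ 11 / δ ^ 3 ≤ Real.log X)
    (hk : 15 * Real.log X ≤ k) (h0 : 0 ≤ η) (h1 : η ≤ Real.exp (-(4 * Real.log X))) (hE : IsNearlyRandomSet P k Y X η E) :
    P.real {ω | HasGapIn E Y X ((1 + δ) * Real.log X ^ 2) ω} ≤ Real.exp (-(δ * Real.log X / 2)) := by
  set L := Real.log X with hLdef
  have hbig := big_exp hδ hL0
  have hL1 : 10 ^ 11 ≤ L := by
    refine le_trans ?_ hL0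
    rw [le_div_iff₀ (by positivity)]
    have : δ ^ 3 ≤ 1 := pow_le_one₀ hδ.le (by linarith)
    nlinarith
  have hX0' : X ≠ 0 := by
    rintro rfl
    simp at hLdef
    linarith
  have hX0 : (0 : ℝ) < X := by exact_mod_cast Nat.pos_of_ne_zero hX0'
  have hXe : Real.exp L = X := Real.exp_log hX0
  have hX3 : 3 ≤ X := by
    have : (3 : ℝ) ≤ X := by
      rw [← hXe]
      have := Real.add_one_le_exp L
      linarith
    exact_mod_cast this
  have hk1 : 1 ≤ k := by
    have : (0 : ℝ) < k := by linarith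
    exact_mod_cast this
  have hη1 : η ≤ 1 := h1.trans (by rw [Real.exp_le_one_iff]; linarith)
  set h := ⌈(1 + δ) * L ^ 2⌉₊ - 1 with hh
  have hc1 : (1 + δ) * L ^ 2 ≤ (⌈(1 + δ) * L ^ 2⌉₊ : ℝ) := Nat.le_ceil _
  have hcpos : 1 ≤ ⌈(1 + δ) * L ^ 2⌉₊ := Nat.one_le_ceil_iff.2 (by positivity)
  have hh1 : (1 + δ) * L ^ 2 - 1 ≤ h := by
    rw [hh, Nat.cast_sub hcpos]
    push_cast
    linarith
  have hsub : {ω | HasGapIn E Y X ((1 + δ) * L ^ 2) ω} ⊆
      ⋃ a ∈ (Icc Y X).filter (fun a => a + h ≤ X), void E (Ioc a (a + h)) := by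
    rintro ω ⟨a, b, ha, hab, hb, -, -, hc, hH⟩
    have hab' : a + h < b := by
      have h2 : ⌈(1 + δ) * L ^ 2⌉₊ ≤ b - a := by
        rw [Nat.ceil_le, Nat.cast_sub hab.le]
        exact hH
      omega
    rw [Set.mem_iUnion₂]
    refine ⟨a, ?_, ?_⟩
    · rw [mem_filter, mem_Icc]
      omega
    · intro n hn
      rw [mem_Ioc] at hn
      exact hc n hn.1 (by omega)
  have hone : ∀ a ∈ (Icc Y X).filter (fun a => a + h ≤ X), P.real (void E (Ioc a (a + h))) ≤
      7 * Real.exp (-((1 + δ) * L)) := by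
    intro a ha
    rw [mem_filter, mem_Icc] at ha
    have hS : Ioc a (a + h) ⊆ Icc Y X := by
      intro n hn
      rw [mem_Ioc] at hn
      rw [mem_Icc]
      omega
    have hμ : (1 + δ) * L - 1 ≤ ∑ n ∈ Ioc a (a + h), pr n := by
      refine le_trans ?_ (sum_pr_ge hY hS hX3)
      rw [Nat.card_Ioc, show a + h - a = h by omega, le_div_iff₀ (by linarith)]
      nlinarith
    have h2 := nvoid_le hY hk1 h0 hη1 hE hS ((1 + δ) * L - 1) (by nlinarith) hμ
    have t1 : Real.exp (-((1 + δ) * L - 1)) = Real.exp 1 * Real.exp (-((1 + δ) * L)) := by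
      rw [← Real.exp_add]; congr 1; ring
    have t2 : Real.exp (2.72 * ((1 + δ) * L - 1 + 1) - k) ≤ Real.exp (-((1 + δ) * L)) := by
      apply Real.exp_le_exp.2
      nlinarith
    have t3 : η * Real.exp ((1 + δ) * L - 1 + 1) ≤ Real.exp (-((1 + δ) * L)) := by
      calc η * Real.exp ((1 + δ) * L - 1 + 1) ≤ Real.exp (-(4 * L)) * Real.exp ((1 + δ) * L - 1 + 1) :=
            mul_le_mul_of_nonneg_right h1 (Real.exp_pos _).le
        _ = Real.exp (-(4 * L) + ((1 + δ) * L - 1 + 1)) := by rw [← Real.exp_add]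
        _ ≤ Real.exp (-((1 + δ) * L)) := Real.exp_le_exp.2 (by nlinarith)
    have he : Real.exp 1 < 2.7182818286 := Real.exp_one_lt_d9
    rw [t1] at h2
    have hp := Real.exp_pos (-((1 + δ) * L))
    nlinarith
  calc P.real {ω | HasGapIn E Y X ((1 + δ) * L ^ 2) ω}
      ≤ P.real (⋃ a ∈ (Icc Y X).filter (fun a => a + h ≤ X), void E (Ioc a (a + h))) :=
        measureReal_mono hsub (measure_ne_top _ _)
    _ ≤ ∑ a ∈ (Icc Y X).filter (fun a => a + h ≤ X), P.real (void E (Ioc a (a + h))) :=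
        measureReal_biUnion_finset_le _ _
    _ ≤ ∑ a ∈ (Icc Y X).filter (fun a => a + h ≤ X), 7 * Real.exp (-((1 + δ) * L)) := sum_le_sum hone
    _ ≤ X * (7 * Real.exp (-((1 + δ) * L))) := by
        rw [sum_const, nsmul_eq_mul]
        refine mul_le_mul_of_nonneg_right ?_ (by positivity)
        have h3 : ((Icc Y X).filter (fun a => a + h ≤ X)).card ≤ (Icc Y X).card := card_filter_le _ _
        rw [Nat.card_Icc] at h3
        have : ((Icc Y X).filter (fun a => a + h ≤ X)).card ≤ X := by omega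
        exact_mod_cast this
    _ ≤ Real.exp (-(δ * L / 2)) := by
        have e1 : (X : ℝ) * (7 * Real.exp (-((1 + δ) * L))) = 7 * Real.exp (-(δ * L / 2)) * Real.exp (-(δ * L / 2)) := by
          rw [← hXe, mul_assoc, ← Real.exp_add, mul_left_comm, ← Real.exp_add]
          congr 2
          ring
        rw [e1]
        have e2 : 7 * Real.exp (-(δ * L / 2)) ≤ 1 := by
          rw [Real.exp_neg, ← div_eq_mul_inv, div_le_one (Real.exp_pos _)]
          have : Real.exp (δ * L / 4) ≤ Real.exp (δ * L / 2) := Real.exp_le_exp.2 (by nlinarith)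
          nlinarith
        have := Real.exp_pos (-(δ * L / 2))
        nlinarith

end Pool.Agent.Q51.LW
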