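import Pool.Agent.Q51.LW.SharpLow
import Pool.Agent.Q51.LI.SharpAs

/-!
# Almost sure asymptotics of the largest gap, approximate independence in windows
-/

namespace Pool.Agent.Q51.LW

open Finset MeasureTheory Filter Pool.Agent.Q51.LI

variable {Ω : Type} [MeasurableSpace Ω]

/-- The asymptotics for one `δ`. -/
theorem ae_sharp_one {P : Measure Ω} [IsProbabilityMeasure P] (E : ℕ → Set Ω)
    (h : ∀ᶠ X : ℕ in atTop, IsNearlyRandomSet P ⌈15 * Real.log X⌉₊ (Nat.sqrt X) X ((X : ℝ) ^ (-4 : ℝ)) E) (δ : ℝ) (hδ : 0 < δ)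
    (hδ' : δ ≤ 1 / 4) :
    ∀ᵐ ω ∂P, ∀ᶠ X : ℕ in atTop,
      HasGap E X ((1 - 2 * δ) * Real.log X ^ 2) ω ∧ ¬ HasGap E X ((1 + 4 * δ) * Real.log X ^ 2) ω := by
  obtain ⟨X₁, hX₁⟩ := eventually_atTop.1 h
  have hl2 : (0.69 : ℝ) < Real.log 2 := by have := Real.log_two_gt_d9; linarith
  have hl2' : Real.log 2 < 0.7 := by have := Real.log_two_lt_d9; linarith
  have hpow : ∀ i : ℕ, i ≤ 2 ^ i := fun i => (Nat.lt_two_pow_self).le
  obtain ⟨N₀, hN₀⟩ := exists_nat_ge (2 * (10 ^ 11 / δ ^ 3))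
  have hlarge : ∀ i : ℕ, max (max X₁ N₀) 4 ≤ i → X₁ ≤ 2 ^ i ∧ 3 ≤ 2 ^ i ∧ 10 ^ 11 / δ ^ 3 ≤ Real.log ((2 ^ i : ℕ) : ℝ) ∧
      3 ≤ Nat.sqrt (2 ^ i) := by
    intro i hi
    have h1 : X₁ ≤ i := ((le_max_left _ _).trans (le_max_left _ _)).trans hi
    have h2 : N₀ ≤ i := ((le_max_right _ _).trans (le_max_left _ _)).trans hi
    have h3 : 4 ≤ i := (le_max_right _ _).trans hi
    have h16 : 2 ^ 4 ≤ 2 ^ i := Nat.pow_le_pow_right (by norm_num) h3
    refine ⟨h1.trans (hpow i), by omega, ?_, ?_⟩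
    · rw [log_two_pow]
      have h4 : (N₀ : ℝ) ≤ i := by exact_mod_cast h2
      have h5 : (0 : ℝ) ≤ 10 ^ 11 / δ ^ 3 := by positivity
      nlinarith
    · rw [Nat.le_sqrt]
      omega
  have hgeo : Summable fun i : ℕ => (Real.exp (-(δ * Real.log 2 / 2))) ^ i :=
    summable_geometric_of_lt_one (Real.exp_pos _).le (by
      rw [Real.exp_lt_one_iff]
      have : 0 < δ * Real.log 2 / 2 := by positivity
      linarith)
  have hval : ∀ i : ℕ, Real.exp (-(δ * Real.log ((2 ^ i : ℕ) : ℝ) / 2)) = (Real.exp (-(δ * Real.log 2 / 2))) ^ i := by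
    intro i
    rw [log_two_pow, ← Real.exp_nat_mul]
    congr 1
    ring
  have hlow : ∀ᵐ ω ∂P, ∀ᶠ i : ℕ in atTop,
      ω ∉ {ω | ¬ HasGapIn E (Nat.sqrt (2 ^ i)) (2 ^ i) ((1 - δ) * Real.log ((2 ^ i : ℕ) : ℝ) ^ 2) ω} := by
    refine ae_eventually _ _ hgeo (max (max X₁ N₀) 4) fun i hi => ?_
    obtain ⟨g1, g2, g3, g4⟩ := hlarge i hi
    rw [← hval i]
    have hE := hX₁ _ g1
    rw [nat_ge _ g2] at hE
    exact sharp_lower g4 (Nat.sqrt_le _) hδ hδ' g3 (Nat.le_ceil _) (Real.exp_pos _).le le_rfl hE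
  have hupp : ∀ᵐ ω ∂P, ∀ᶠ i : ℕ in atTop,
      ω ∉ {ω | HasGapIn E (Nat.sqrt (2 ^ i)) (2 ^ i) ((1 + δ) * Real.log ((2 ^ i : ℕ) : ℝ) ^ 2) ω} := by
    refine ae_eventually _ _ hgeo (max (max X₁ N₀) 4) fun i hi => ?_
    obtain ⟨g1, g2, g3, g4⟩ := hlarge i hi
    rw [← hval i]
    have hE := hX₁ _ g1
    rw [nat_ge _ g2] at hE
    exact sharp_upper g4 hδ hδ' g3 (Nat.le_ceil _) (Real.exp_pos _).le le_rfl hE
  have hvoid : ∀ᵐ ω ∂P, ∀ᶠ i : ℕ in atTop, ω ∉ void E (Icc (Nat.sqrt (2 ^ i)) (2 ^ i / 2)) := by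
    refine ae_eventually _ _ hgeo (max (max X₁ N₀) 4) fun i hi => ?_
    obtain ⟨g1, g2, g3, g4⟩ := hlarge i hi
    rw [← hval i]
    have hE := hX₁ _ g1
    rw [nat_ge _ g2] at hE
    have hL1 : 10 ^ 3 ≤ Real.log ((2 ^ i : ℕ) : ℝ) := by
      refine le_trans ?_ g3
      rw [le_div_iff₀ (by positivity)]
      have : δ ^ 3 ≤ 1 := pow_le_one₀ hδ.le (by linarith)
      nlinarith
    refine (void_start g4 (Nat.sqrt_le _) hL1 (Nat.le_ceil _) (Real.exp_pos _).le le_rfl hE).trans ?_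
    set L := Real.log ((2 ^ i : ℕ) : ℝ)
    have h8 : 8 ≤ Real.exp L := by
      have := Real.add_one_le_exp L
      linarith
    have h9 : Real.exp L * Real.exp (-(2 * L)) ≤ Real.exp (-(δ * L / 2)) := by
      rw [← Real.exp_add]
      apply Real.exp_le_exp.2
      nlinarith
    have h10 := Real.exp_pos (-(2 * L))
    nlinarith
  filter_upwards [hlow, hupp, hvoid] with ω h1 h2 hv
  obtain ⟨N₁, hN₁⟩ := eventually_atTop.1 h1
  obtain ⟨N₂, hN₂⟩ := eventually_atTop.1 h2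
  obtain ⟨N₄, hN₄⟩ := eventually_atTop.1 hv
  obtain ⟨N₃, hN₃⟩ := exists_nat_ge (10 / δ)
  have hδi : ∀ i : ℕ, N₃ + 1 ≤ i → 10 ≤ δ * i := by
    intro i hi3
    have hi3' : (10 : ℝ) / δ ≤ i := by
      have : (N₃ : ℝ) ≤ i := by exact_mod_cast (by omega : N₃ ≤ i)
      linarith
    rw [div_le_iff₀ hδ] at hi3'
    linarith
  set J := max (max N₂ N₄) (N₃ + 1) with hJ
  have hbigX : ∀ᶠ X : ℕ in atTop, ((2 ^ (J + 1) : ℕ) : ℝ) < (1 + 4 * δ) * Real.log X ^ 2 := by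
    have h1 : Tendsto (fun X : ℕ => (1 + 4 * δ) * Real.log X ^ 2) atTop atTop := by
      have h2 : Tendsto (fun a : ℕ => Real.log a) atTop atTop := Real.tendsto_log_atTop.comp tendsto_natCast_atTop_atTop
      exact ((tendsto_pow_atTop (by norm_num : (2 : ℕ) ≠ 0)).comp h2).const_mul_atTop (by linarith)
    exact h1.eventually_gt_atTop _
  filter_upwards [exists_dyadic (max (max N₁ (max (max X₁ N₀) 4)) (N₃ + 1)), hbigX] with X hX hXJ
  constructor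
  · obtain ⟨i, hi, hiX, hXi⟩ := hX
    have hi3 : N₃ + 1 ≤ i := (le_max_right _ _).trans hi
    have hiδ := hδi i hi3
    have hi0 : (0 : ℝ) < i := by exact_mod_cast (by omega : 0 < i)
    have hiN₁ : N₁ ≤ i := ((le_max_left _ _).trans (le_max_left _ _)).trans hi
    have hi4 : max (max X₁ N₀) 4 ≤ i := ((le_max_right _ _).trans (le_max_left _ _)).trans hi
    have hXpos : (0 : ℝ) < X := by
      have : 0 < X := lt_of_lt_of_le (by positivity) hiX
      exact_mod_cast this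
    have l1 : (i : ℝ) * Real.log 2 ≤ Real.log X := by
      rw [← log_two_pow]
      exact Real.log_le_log (by positivity) (by exact_mod_cast hiX)
    have l2 : Real.log X ≤ (i + 1) * Real.log 2 := by
      have : Real.log X ≤ Real.log ((2 ^ (i + 1) : ℕ) : ℝ) := Real.log_le_log hXpos (by exact_mod_cast hXi.le)
      rw [log_two_pow] at this
      push_cast at this
      exact this
    have l0 : 0 < Real.log X := lt_of_lt_of_le (by positivity) l1
    have h3 := hN₁ i hiN₁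
    simp only [Set.mem_ofPred_eq, not_not] at h3
    have h3' : HasGap E (2 ^ i) ((1 - δ) * Real.log ((2 ^ i : ℕ) : ℝ) ^ 2) ω := by
      obtain ⟨a, b, g1, g2⟩ := h3
      exact ⟨a, b, (hlarge i hi4).2.2.2.trans g1, g2⟩
    refine h3'.mono hiX ?_
    rw [log_two_pow]
    have e : Real.log X ≤ (1 + δ / 10) * ((i : ℝ) * Real.log 2) := by nlinarith
    have e2 : Real.log X ^ 2 ≤ ((1 + δ / 10) * ((i : ℝ) * Real.log 2)) ^ 2 := pow_le_pow_left₀ l0.le e 2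
    have e3 : (1 - 2 * δ) * (1 + δ / 10) ^ 2 ≤ 1 - δ := by nlinarith [mul_pos hδ hδ, mul_pos (mul_pos hδ hδ) hδ]
    have e4 : 0 ≤ ((i : ℝ) * Real.log 2) ^ 2 := sq_nonneg _
    calc (1 - 2 * δ) * Real.log X ^ 2 ≤ (1 - 2 * δ) * ((1 + δ / 10) * ((i : ℝ) * Real.log 2)) ^ 2 :=
          mul_le_mul_of_nonneg_left e2 (by linarith)
      _ = ((1 - 2 * δ) * (1 + δ / 10) ^ 2) * ((i : ℝ) * Real.log 2) ^ 2 := by ring
      _ ≤ (1 - δ) * ((i : ℝ) * Real.log 2) ^ 2 := mul_le_mul_of_nonneg_right e3 e4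
  · rintro ⟨a, b, h3, hab, hbX, hEa, hEb, hc, hH⟩
    have hbJ : 2 ^ (J + 1) < b := by
      by_contra hcon
      have h4 : (b : ℝ) ≤ ((2 ^ (J + 1) : ℕ) : ℝ) := by exact_mod_cast not_lt.1 hcon
      have h5 : (0 : ℝ) ≤ a := Nat.cast_nonneg _
      linarith
    have hb1 : b - 1 ≠ 0 := by omega
    set i := Nat.log 2 (b - 1) with hi
    have g1 : 2 ^ i ≤ b - 1 := Nat.pow_log_le_self 2 hb1
    have g2 : b - 1 < 2 ^ (i + 1) := Nat.lt_pow_succ_log_self (by norm_num) (b - 1)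
    have g3 : J + 1 ≤ i := by
      by_contra hcon
      have h4 : 2 ^ (i + 1) ≤ 2 ^ (J + 1) := Nat.pow_le_pow_right (by norm_num) (by omega)
      omega
    have hJ2 : N₂ ≤ J := (le_max_left _ _).trans (le_max_left _ _)
    have hJ4 : N₄ ≤ J := (le_max_right _ _).trans (le_max_left _ _)
    have hJ3 : N₃ + 1 ≤ J := le_max_right _ _
    have hhalf : 2 ^ (i + 1) / 2 = 2 ^ i := by
      rw [pow_succ]
      omega
    have hYa : Nat.sqrt (2 ^ (i + 1)) ≤ a := by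
      by_contra hcon
      have h4 := hN₄ (i + 1) (by omega)
      rw [hhalf] at h4
      simp only [void, Set.mem_ofPred_eq] at h4
      push Not at h4
      obtain ⟨n, hn, hnE⟩ := h4
      rw [mem_Icc] at hn
      exact hc n (by omega) (by omega) hnE
    refine hN₂ (i + 1) (by omega) ⟨a, b, hYa, hab, by omega, hEa, hEb, hc, le_trans ?_ hH⟩
    have hiδ := hδi i (by omega)
    have hi0 : (0 : ℝ) < i := by exact_mod_cast (by omega : 0 < i)
    have l1 : (i : ℝ) * Real.log 2 ≤ Real.log X := by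
      rw [← log_two_pow]
      exact Real.log_le_log (by positivity) (by exact_mod_cast (by omega : 2 ^ i ≤ X))
    have l0 : 0 < Real.log X := lt_of_lt_of_le (by positivity) l1
    rw [log_two_pow]
    push_cast
    have e : ((i : ℝ) + 1) * Real.log 2 ≤ (1 + δ / 10) * Real.log X := by nlinarith
    have e2 : (((i : ℝ) + 1) * Real.log 2) ^ 2 ≤ ((1 + δ / 10) * Real.log X) ^ 2 := pow_le_pow_left₀ (by positivity) e 2
    have e3 : (1 + δ) * (1 + δ / 10) ^ 2 ≤ 1 + 4 * δ := by nlinarith [mul_pos hδ hδ, mul_pos (mul_pos hδ hδ) hδ]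
    calc (1 + δ) * (((i : ℝ) + 1) * Real.log 2) ^ 2 ≤ (1 + δ) * ((1 + δ / 10) * Real.log X) ^ 2 :=
          mul_le_mul_of_nonneg_left e2 (by linarith)
      _ = ((1 + δ) * (1 + δ / 10) ^ 2) * Real.log X ^ 2 := by ring
      _ ≤ (1 + 4 * δ) * Real.log X ^ 2 := mul_le_mul_of_nonneg_right e3 (sq_nonneg _)

/-- **Almost surely the largest gap up to `X` is asymptotic to `(log X) ^ 2`.** -/
theorem ae_sharp {P : Measure Ω} [IsProbabilityMeasure P] (E : ℕ → Set Ω)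
    (h : ∀ᶠ X : ℕ in atTop, IsNearlyRandomSet P ⌈15 * Real.log X⌉₊ (Nat.sqrt X) X ((X : ℝ) ^ (-4 : ℝ)) E) :
    ∀ᵐ ω ∂P, ∀ δ : ℝ, 0 < δ → ∀ᶠ X : ℕ in atTop,
      HasGap E X ((1 - δ) * Real.log X ^ 2) ω ∧ ¬ HasGap E X ((1 + δ) * Real.log X ^ 2) ω := by
  have h1 : ∀ᵐ ω ∂P, ∀ m : ℕ, ∀ᶠ X : ℕ in atTop,
      HasGap E X ((1 - 2 * (1 / (m + 4))) * Real.log X ^ 2) ω ∧ ¬ HasGap E X ((1 + 4 * (1 / (m + 4))) * Real.log X ^ 2) ω := by
    rw [ae_all_iff]
    intro m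
    refine ae_sharp_one E h (1 / (m + 4)) (by positivity) ?_
    refine one_div_le_one_div_of_le (by norm_num) ?_
    have : (0 : ℝ) ≤ m := by positivity
    linarith
  filter_upwards [h1] with ω hω δ hδ
  obtain ⟨m, hm⟩ := exists_nat_ge (4 / δ)
  have h2 : 4 * (1 / ((m : ℝ) + 4)) ≤ δ := by
    rw [mul_one_div, div_le_iff₀ (by positivity)]
    rw [div_le_iff₀ hδ] at hm
    nlinarith
  have h3 : 0 < 1 / ((m : ℝ) + 4) := by positivity
  filter_upwards [hω m] with X hX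
  refine ⟨hX.1.mono le_rfl ?_, fun hg => hX.2 (hg.mono le_rfl ?_)⟩
  · exact mul_le_mul_of_nonneg_right (by linarith) (sq_nonneg _)
  · exact mul_le_mul_of_nonneg_right (by linarith) (sq_nonneg _)

end Pool.Agent.Q51.LW
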