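import Pool.Agent.Q51.LW.Sharp

/-!
# The lower bound with the constant, in a window
-/

namespace Pool.Agent.Q51.LW

open Finset MeasureTheory Filter Pool.Agent.Q51.LI

/-- A block which is avoided, between two sets which are not avoided, gives a gap. -/
lemma gap_of_blocks {Ω : Type} (E : ℕ → Set Ω) (Y X u v : ℕ) (ω : Ω) (h1 : ∃ n, Y ≤ n ∧ n < u ∧ ω ∈ E n)
    (h2 : ∃ n, v ≤ n ∧ n ≤ X ∧ ω ∈ E n) (huv : u ≤ v) (h3 : ∀ n, u ≤ n → n < v → ω ∉ E n) (H : ℝ)
    (hH : H ≤ (v : ℝ) - u + 1) : HasGapIn E Y X H ω := by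
  classical
  obtain ⟨n₁, a1, a2, a3⟩ := h1
  obtain ⟨n₂, b1, b2, b3⟩ := h2
  set A := (Ico Y u).filter (fun n => ω ∈ E n) with hA
  set C := (Icc v X).filter (fun n => ω ∈ E n) with hC
  have hAn : A.Nonempty := ⟨n₁, by rw [hA, mem_filter, mem_Ico]; exact ⟨⟨a1, a2⟩, a3⟩⟩
  have hCn : C.Nonempty := ⟨n₂, by rw [hC, mem_filter, mem_Icc]; exact ⟨⟨b1, b2⟩, b3⟩⟩
  have ha := max'_mem A hAn
  have hc := min'_mem C hCn
  set a := A.max' hAn
  set b := C.min' hCn
  rw [hA, mem_filter, mem_Ico] at ha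
  rw [hC, mem_filter, mem_Icc] at hc
  refine ⟨a, b, ha.1.1, by omega, hc.1.2, ha.2, hc.2, ?_, ?_⟩
  · intro c hac hcb hcE
    rcases lt_or_ge c u with h | h
    · have : c ∈ A := by rw [hA, mem_filter, mem_Ico]; exact ⟨⟨by omega, h⟩, hcE⟩
      exact absurd (le_max' A c this) (by omega)
    · rcases lt_or_ge c v with h' | h'
      · exact h3 c h h' hcE
      · have : c ∈ C := by rw [hC, mem_filter, mem_Icc]; exact ⟨⟨h', by omega⟩, hcE⟩
        exact absurd (min'_le C c this) (by omega)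
  · have e1 : (a : ℝ) + 1 ≤ u := by exact_mod_cast ha.1.2
    have e2 : (v : ℝ) ≤ b := by exact_mod_cast hc.1.1
    linarith


variable {Ω : Type} [MeasurableSpace Ω] {P : Measure Ω} {k Y X : ℕ} {η : ℝ} {E : ℕ → Set Ω}

/-- **The lower bound with the constant.** -/
theorem sharp_lower [IsProbabilityMeasure P] (hY : 3 ≤ Y) (hYX : Y * Y ≤ X) {δ : ℝ} (hδ : 0 < δ) (hδ' : δ ≤ 1 / 4) (hL0 : 10 ^ 11 / δ ^ 3 ≤ Real.log X)
    (hk : 15 * Real.log X ≤ k) (h0 : 0 ≤ η) (h1 : η ≤ Real.exp (-(4 * Real.log X))) (hE : IsNearlyRandomSet P k Y X η E) :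
    P.real {ω | ¬ HasGapIn E Y X ((1 - δ) * Real.log X ^ 2) ω} ≤ Real.exp (-(δ * Real.log X / 2)) := by
  classical
  set L := Real.log X with hLdef
  have hbig := big_exp hδ hL0
  have hδL : 10 ^ 11 ≤ δ * L := by
    have h2 : 10 ^ 11 / δ ^ 3 ≤ L := hL0
    rw [div_le_iff₀ (by positivity)] at h2
    have h3 : δ ^ 3 ≤ δ := by
      have : δ ^ 2 ≤ 1 := pow_le_one₀ hδ.le (by linarith)
      nlinarith
    have hL00 : 0 < L := lt_of_lt_of_le (by positivity) hL0
    nlinarith
  have hL1 : 10 ^ 11 ≤ L := by nlinarith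
  have hX0' : X ≠ 0 := by
    rintro rfl
    simp at hLdef
    linarith
  have hX0 : (0 : ℝ) < X := by exact_mod_cast Nat.pos_of_ne_zero hX0'
  have hXe : Real.exp L = X := Real.exp_log hX0
  have hX3 : 3 ≤ X := by
    have : (3 : ℝ) ≤ X := by
      rw [← hXe]
      have := Real.add_one_le_exp L
      linarith
    exact_mod_cast this
  have hk1 : 1 ≤ k := by
    have : (0 : ℝ) < k := by linarith
    exact_mod_cast this
  have hη1 : η ≤ 1 := h1.trans (by rw [Real.exp_le_one_iff]; linarith)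
  have he : Real.exp 1 < 2.7182818286 := Real.exp_one_lt_d9
  -- sizes
  set R := Real.exp ((1 - δ / 4) * L) with hR
  have hRX : (X : ℝ) = R * Real.exp (δ * L / 4) := by
    rw [← hXe, hR, ← Real.exp_add]
    congr 1
    ring
  have hRbig : 10 ^ 8 * L ^ 2 ≤ R := hbig.trans (Real.exp_le_exp.2 (by nlinarith))
  have hL2 : (10 : ℝ) ^ 22 ≤ L ^ 2 := by nlinarith
  have hRX8 : 10 ^ 8 * R ≤ X := by
    rw [hRX]
    nlinarith
  set M := ⌈R⌉₊ with hM
  have hM1 : R ≤ M := Nat.le_ceil _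
  have hM2 : (M : ℝ) < R + 1 := Nat.ceil_lt_add_one (Real.exp_pos _).le
  set h := ⌈(1 - δ) * L ^ 2⌉₊ with hh
  have hh1 : (1 - δ) * L ^ 2 ≤ h := Nat.le_ceil _
  have hh2 : (h : ℝ) < (1 - δ) * L ^ 2 + 1 := Nat.ceil_lt_add_one (by nlinarith)
  have hh3 : 1 ≤ h := Nat.one_le_ceil_iff.2 (by nlinarith)
  have hh4 : (h : ℝ) ≤ 2 * L ^ 2 := by nlinarith
  have hhpos : (0 : ℝ) < h := by exact_mod_cast hh3
  set N := X / (4 * h) with hN
  have hN1 : N * h ≤ X / 4 := by
    rw [hN, ← Nat.div_div_eq_div_mul]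
    exact Nat.div_mul_le_self _ _
  have hMX : M ≤ X / 4 := by
    rw [Nat.le_div_iff_mul_le (by norm_num)]
    have : ((M * 4 : ℕ) : ℝ) ≤ X := by
      push_cast
      nlinarith
    exact_mod_cast this
  have hMN : M + N * h ≤ X / 2 := by omega
  have hM3 : 3 ≤ M := by
    have : (3 : ℝ) ≤ M := by nlinarith
    exact_mod_cast this
  have hYR : 2 * (Y : ℝ) ≤ R := by
    have h2 : (Y : ℝ) ≤ Real.exp (L / 2) := by
      have h3 : (Y : ℝ) * Y ≤ Real.exp (L / 2) * Real.exp (L / 2) := by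
        rw [← Real.exp_add, add_halves, hXe]
        exact_mod_cast hYX
      exact (mul_self_le_mul_self_iff (Nat.cast_nonneg _) (Real.exp_pos _).le).2 h3
    have h4 : 2 * Real.exp (L / 2) ≤ R := by
      have h5 : Real.exp (L / 2) * Real.exp 1 ≤ R := by
        rw [← Real.exp_add, hR]
        apply Real.exp_le_exp.2
        nlinarith
      have h6 : (2 : ℝ) ≤ Real.exp 1 := by have := Real.add_one_le_exp (1 : ℝ); linarith
      have h7 := Real.exp_pos (L / 2)
      nlinarith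
    linarith
  have hYM : Y ≤ M := by
    have : (Y : ℝ) ≤ M := by
      have : (0 : ℝ) ≤ Y := Nat.cast_nonneg _
      linarith
    exact_mod_cast this
  have hNlow : (X : ℝ) / (16 * L ^ 2) ≤ N := by
    have h2 : (X : ℝ) / (4 * h) < (N : ℝ) + 1 := by
      rw [div_lt_iff₀ (by positivity)]
      have h3 : X < (N + 1) * (4 * h) := by
        have := Nat.lt_div_mul_add (a := X) (b := 4 * h) (by omega)
        rw [← hN] at this
        have e : (N + 1) * (4 * h) = N * (4 * h) + 4 * h := by ring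
        omega
      exact_mod_cast h3
    have h4 : (X : ℝ) / (8 * L ^ 2) ≤ X / (4 * h) := by
      refine div_le_div_of_nonneg_left hX0.le (by positivity) ?_
      linarith
    have h5 : (X : ℝ) / (8 * L ^ 2) = 2 * (X / (16 * L ^ 2)) := by field_simp; ring
    have h6 : 1 ≤ (X : ℝ) / (16 * L ^ 2) := by
      rw [le_div_iff₀ (by positivity)]
      nlinarith
    linarith
  -- the blocks
  set I : ℕ → Finset ℕ := fun j => Ico (M + j * h) (M + (j + 1) * h) with hI
  have hIsub : ∀ j < N, I j ⊆ Icc Y X ∧ ∀ n ∈ I j, M ≤ n ∧ n < X := by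
    intro j hj
    have e : (j + 1) * h ≤ N * h := Nat.mul_le_mul_right _ hj
    have key : ∀ n ∈ I j, M ≤ n ∧ n < X := by
      intro n hn
      simp only [hI, mem_Ico] at hn
      have e2 : X / 2 ≤ X := Nat.div_le_self _ _
      have e3 : 0 ≤ j * h := Nat.zero_le _
      exact ⟨by omega, by omega⟩
    refine ⟨fun n hn => ?_, key⟩
    have := key n hn
    rw [mem_Icc]
    omega
  have hdisj : ∀ i j, i ≠ j → Disjoint (I i) (I j) := by
    intro i j hij
    rw [disjoint_left]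
    intro n hn hn'
    simp only [hI, mem_Ico] at hn hn'
    rcases lt_or_gt_of_ne hij with hlt | hlt
    · have : (i + 1) * h ≤ j * h := Nat.mul_le_mul_right _ hlt
      omega
    · have : (j + 1) * h ≤ i * h := Nat.mul_le_mul_right _ hlt
      omega
  have hprn : ∀ j < N, ∀ n ∈ I j, 0 ≤ pr n ∧ pr n ≤ 1 / ((1 - δ / 4) * L) := by
    intro j hj n hn
    have h2 := ((hIsub j hj).2 n hn).1
    have h3 : 3 ≤ n := hM3.trans h2
    refine ⟨(pr_mem h3).1.le, ?_⟩
    have h4 : (1 - δ / 4) * L ≤ Real.log n := by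
      rw [← Real.log_exp ((1 - δ / 4) * L)]
      exact Real.log_le_log (Real.exp_pos _) (hM1.trans (by exact_mod_cast h2))
    unfold pr
    exact one_div_le_one_div_of_le (by nlinarith) h4
  have hpbar : 1 / ((1 - δ / 4) * L) ≤ 2 / L := by
    rw [div_le_div_iff₀ (by nlinarith) (by linarith)]
    nlinarith
  have hsumI : ∀ j < N, ∑ n ∈ I j, pr n ≤ (1 - 3 * δ / 4) * L + 1 := by
    intro j hj
    calc ∑ n ∈ I j, pr n ≤ ∑ n ∈ I j, 1 / ((1 - δ / 4) * L) := sum_le_sum fun n hn => (hprn j hj n hn).2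
      _ = h * (1 / ((1 - δ / 4) * L)) := by
          rw [sum_const, nsmul_eq_mul]
          congr 2
          simp only [hI, Nat.card_Ico]
          have : (j + 1) * h = j * h + h := by ring
          omega
      _ = h / ((1 - δ / 4) * L) := by ring
      _ ≤ (1 - 3 * δ / 4) * L + 1 := by
          rw [div_le_iff₀ (by nlinarith)]
          have e1 : ((1 - 3 * δ / 4) * L + 1) * ((1 - δ / 4) * L) =
              (1 - δ) * L ^ 2 + 3 * δ ^ 2 / 16 * L ^ 2 + (1 - δ / 4) * L := by ring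
          rw [e1]
          have e2 : 0 ≤ 3 * δ ^ 2 / 16 * L ^ 2 := by positivity
          nlinarith
  have hLμ : (1 - 3 * δ / 4) * L + 1 ≤ L := by nlinarith
  set Q : ℕ → ℝ := fun j => ∏ n ∈ I j, (1 - pr n) with hQ
  have hL2' : 2 / L ≤ 1 / 2 := by
    rw [div_le_div_iff₀ (by linarith) (by norm_num)]
    linarith
  have hQ01 : ∀ j < N, 0 ≤ Q j ∧ Q j ≤ 1 := by
    intro j hj
    refine ⟨prod_nonneg fun n hn => ?_, prod_le_one (fun n hn => ?_) fun n hn => ?_⟩
    · linarith [(hprn j hj n hn).2]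
    · linarith [(hprn j hj n hn).2]
    · linarith [(hprn j hj n hn).1]
  set q := Real.exp (-((1 - 3 * δ / 4) * L) - 5) with hq
  have hqpos : 0 < q := Real.exp_pos _
  have hQlow : ∀ j < N, q ≤ Q j := by
    intro j hj
    have e1 : Real.exp (-∑ n ∈ I j, (pr n + 2 * pr n ^ 2)) ≤ Q j := by
      rw [← sum_neg_distrib, Real.exp_sum]
      refine prod_le_prod (fun n _ => (Real.exp_pos _).le) fun n hn => ?_
      exact one_sub_ge' (hprn j hj n hn).1 ((hprn j hj n hn).2.trans (hpbar.trans hL2'))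
    refine le_trans (Real.exp_le_exp.2 ?_) e1
    have e2 : ∑ n ∈ I j, (pr n + 2 * pr n ^ 2) ≤ ∑ n ∈ I j, pr n * (1 + 4 / L) := by
      refine sum_le_sum fun n hn => ?_
      have h2 := hprn j hj n hn
      have h3 : pr n ≤ 2 / L := h2.2.trans hpbar
      have h4 : 2 * (pr n * pr n) ≤ pr n * (4 / L) := by
        have : pr n * pr n ≤ pr n * (2 / L) := mul_le_mul_of_nonneg_left h3 h2.1
        have e : pr n * (4 / L) = 2 * (pr n * (2 / L)) := by ring
        linarith
      nlinarith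
    rw [← sum_mul] at e2
    have h5 := hsumI j hj
    have h6 : (∑ n ∈ I j, pr n) * (1 + 4 / L) ≤ ((1 - 3 * δ / 4) * L + 1) + 4 := by
      have h7 : (∑ n ∈ I j, pr n) * (4 / L) ≤ 4 := by
        have h8 : (∑ n ∈ I j, pr n) * (4 / L) ≤ L * (4 / L) := mul_le_mul_of_nonneg_right (h5.trans hLμ) (by positivity)
        have h9 : L * (4 / L) = 4 := by field_simp
        linarith
      linarith
    linarith
  set ε : ℝ := 11 * Real.exp (-((2 + 3 * δ / 2) * L)) with hε
  have hnear : ∀ S : Finset ℕ, S ⊆ Icc Y X → ∑ n ∈ S, pr n ≤ (2 - 3 * δ / 2) * L + 2 →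
      |P.real (void E S) - ∏ n ∈ S, (1 - pr n)| ≤ ε := by
    intro S hS hμ
    refine (nvoid_near hY hk1 h0 hη1 hE hS (Real.exp 1) (Real.exp_pos 1)).trans ?_
    have t1 : Real.exp (Real.exp 1 * ∑ n ∈ S, pr n) / Real.exp 1 ^ k ≤ Real.exp (-((2 + 3 * δ / 2) * L)) := by
      rw [← Real.exp_nat_mul, ← Real.exp_sub, mul_one]
      apply Real.exp_le_exp.2
      have h2 : ∑ n ∈ S, pr n ≤ 2 * L := by nlinarith
      have h3 : Real.exp 1 * ∑ n ∈ S, pr n ≤ 2.72 * (2 * L) := by
        refine (mul_le_mul_of_nonneg_left h2 (Real.exp_pos 1).le).trans ?_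
        exact mul_le_mul_of_nonneg_right (by linarith) (by linarith)
      nlinarith
    have t2 : η * Real.exp (∑ n ∈ S, pr n) ≤ 8 * Real.exp (-((2 + 3 * δ / 2) * L)) := by
      have e2 : Real.exp 2 < 8 := by
        have e : Real.exp 2 = Real.exp 1 * Real.exp 1 := by rw [← Real.exp_add]; norm_num
        rw [e]
        nlinarith [Real.exp_pos 1]
      calc η * Real.exp (∑ n ∈ S, pr n) ≤ Real.exp (-(4 * L)) * Real.exp ((2 - 3 * δ / 2) * L + 2) :=
            mul_le_mul h1 (Real.exp_le_exp.2 hμ) (Real.exp_pos _).le (Real.exp_pos _).le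
        _ = Real.exp 2 * Real.exp (-((2 + 3 * δ / 2) * L)) := by
            rw [← Real.exp_add, ← Real.exp_add]
            congr 1
            ring
        _ ≤ 8 * Real.exp (-((2 + 3 * δ / 2) * L)) := mul_le_mul_of_nonneg_right e2.le (Real.exp_pos _).le
    rw [hε]
    linarith
  have hone : ∀ j < N, |P.real (void E (I j)) - Q j| ≤ ε := fun j hj =>
    hnear _ (hIsub j hj).1 (by have := hsumI j hj; nlinarith)
  have htwo : ∀ i < N, ∀ j < N, i ≠ j → |P.real (void E (I i) ∩ void E (I j)) - Q i * Q j| ≤ ε := by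
    intro i hi j hj hij
    have e1 : void E (I i) ∩ void E (I j) = void E (I i ∪ I j) := by
      ext ω
      simp only [void, Set.mem_inter_iff, Set.mem_ofPred_eq, mem_union]
      exact ⟨fun h n hn => hn.elim (h.1 n) (h.2 n), fun h => ⟨fun n hn => h n (Or.inl hn), fun n hn => h n (Or.inr hn)⟩⟩
    have e2 : Q i * Q j = ∏ n ∈ I i ∪ I j, (1 - pr n) := by
      rw [prod_union (hdisj i j hij)]
    rw [e1, e2]
    refine hnear _ (union_subset (hIsub i hi).1 (hIsub j hj).1) ?_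
    rw [sum_union (hdisj i j hij)]
    have := hsumI i hi
    have := hsumI j hj
    linarith
  have hmeas : ∀ j, MeasurableSet (void E (I j ∩ Icc Y X)) := fun j => nmeas_void hE inter_subset_right
  have heq : ∀ j < N, I j ∩ Icc Y X = I j := fun j hj => inter_eq_left.2 (hIsub j hj).1
  have hcheb := second_moment' (P := P) N (fun j => void E (I j ∩ Icc Y X)) hmeas Q hQ01 ε
    (fun j hj => by simp only [heq j hj]; exact hone j hj)
    (fun i hi j hj hij => by simp only [heq i hi, heq j hj]; exact htwo i hi j hj hij)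
  have hev : {ω | ∀ j < N, ω ∉ void E (I j ∩ Icc Y X)} = {ω | ∀ j < N, ω ∉ void E (I j)} := by
    ext ω
    simp only [Set.mem_ofPred_eq]
    exact ⟨fun h j hj => by have := h j hj; rwa [heq j hj] at this, fun h j hj => by rw [heq j hj]; exact h j hj⟩
  rw [hev] at hcheb
  set p0 := P.real {ω | ∀ j < N, ω ∉ void E (I j)} with hp0
  set V := ∑ j ∈ range N, Q j with hVdef
  have hNpos : (0 : ℝ) < N := lt_of_lt_of_le (by positivity) hNlow
  have hVlow : N * q ≤ V := by
    have : ∑ j ∈ range N, q ≤ V := sum_le_sum fun j hj => hQlow j (mem_range.1 hj)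
    rwa [sum_const, card_range, nsmul_eq_mul] at this
  have hVpos : 0 < V := lt_of_lt_of_le (by positivity) hVlow
  have hp1 : p0 ≤ 2 / V + 3 * ε / q ^ 2 := by
    have h2 : p0 ≤ (2 * V + 3 * ε * N ^ 2) / V ^ 2 := by
      rw [le_div_iff₀ (by positivity)]
      exact hcheb
    have h3 : (2 * V + 3 * ε * N ^ 2) / V ^ 2 = 2 / V + 3 * ε * (N ^ 2 / V ^ 2) := by field_simp
    have h4 : (N : ℝ) ^ 2 / V ^ 2 ≤ 1 / q ^ 2 := by
      rw [div_le_div_iff₀ (by positivity) (by positivity), one_mul, ← mul_pow]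
      exact pow_le_pow_left₀ (by positivity) hVlow 2
    have h5 : 3 * ε * ((N : ℝ) ^ 2 / V ^ 2) ≤ 3 * ε * (1 / q ^ 2) := mul_le_mul_of_nonneg_left h4 (by positivity)
    have h6 : 3 * ε * (1 / q ^ 2) = 3 * ε / q ^ 2 := by ring
    linarith
  set D := Real.exp (-(δ * L / 2)) with hD
  have hDpos : 0 < D := Real.exp_pos _
  set G := Real.exp (-(δ * L / 4)) with hG
  have hGpos : 0 < G := Real.exp_pos _
  have hG1 : G * L ^ 2 ≤ 1 / 10 ^ 8 := by
    have e : G * Real.exp (δ * L / 4) = 1 := by rw [hG, ← Real.exp_add]; simp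
    rw [le_div_iff₀ (by norm_num)]
    nlinarith
  have hG2 : G ≤ 1 / 10 ^ 8 := by
    have : G ≤ G * L ^ 2 := by nlinarith
    linarith
  have he5 := exp_five_lt
  have q1 : 2 / V ≤ D / 4 := by
    have h2 : X / (16 * L ^ 2) * q ≤ V := (mul_le_mul_of_nonneg_right hNlow hqpos.le).trans hVlow
    have h3 : (X : ℝ) * q = Real.exp (3 * δ * L / 4) / Real.exp 5 := by
      rw [← hXe, hq, ← Real.exp_add, ← Real.exp_sub]
      congr 1
      ring
    have h4 : Real.exp (3 * δ * L / 4) / (149 * 16 * L ^ 2) ≤ V := by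
      refine le_trans ?_ h2
      have e : X / (16 * L ^ 2) * q = (X * q) / (16 * L ^ 2) := by ring
      rw [e, h3, div_div]
      refine div_le_div_of_nonneg_left (Real.exp_pos _).le (by positivity) ?_
      have : 0 < 16 * L ^ 2 := by positivity
      nlinarith
    rw [div_le_iff₀ hVpos]
    have h5 : D / 4 * (Real.exp (3 * δ * L / 4) / (149 * 16 * L ^ 2)) ≤ D / 4 * V :=
      mul_le_mul_of_nonneg_left h4 (by positivity)
    refine le_trans ?_ h5
    have h6 : D * Real.exp (3 * δ * L / 4) = Real.exp (δ * L / 4) := by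
      rw [hD, ← Real.exp_add]
      congr 1
      ring
    have h7 : D / 4 * (Real.exp (3 * δ * L / 4) / (149 * 16 * L ^ 2)) = Real.exp (δ * L / 4) / (4 * (149 * 16 * L ^ 2)) := by
      rw [← h6]
      field_simp
    rw [h7, le_div_iff₀ (by positivity)]
    nlinarith
  have q2 : 3 * ε / q ^ 2 ≤ D / 4 := by
    have h2 : q ^ 2 = Real.exp (-((2 - 3 * δ / 2) * L)) / (Real.exp 5 * Real.exp 5) := by
      rw [hq, sq, ← Real.exp_add, ← Real.exp_add, ← Real.exp_sub]
      congr 1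
      ring
    rw [div_le_iff₀ (by positivity), h2, hε]
    have h3 : D * Real.exp (-((2 - 3 * δ / 2) * L)) = Real.exp (-((2 + 3 * δ / 2) * L)) * Real.exp (5 * δ * L / 2) := by
      rw [hD, ← Real.exp_add, ← Real.exp_add]
      congr 1
      ring
    have h4 : D / 4 * (Real.exp (-((2 - 3 * δ / 2) * L)) / (Real.exp 5 * Real.exp 5)) =
        Real.exp (-((2 + 3 * δ / 2) * L)) * (Real.exp (5 * δ * L / 2) / (4 * (Real.exp 5 * Real.exp 5))) := by
      rw [div_mul_div_comm, h3]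
      ring
    rw [h4]
    have h5 : 33 ≤ Real.exp (5 * δ * L / 2) / (4 * (Real.exp 5 * Real.exp 5)) := by
      rw [le_div_iff₀ (by positivity)]
      have h6 : Real.exp (δ * L / 4) ≤ Real.exp (5 * δ * L / 2) := Real.exp_le_exp.2 (by nlinarith)
      have h7 : Real.exp 5 * Real.exp 5 ≤ 149 * 149 := mul_le_mul he5.le he5.le (Real.exp_pos _).le (by norm_num)
      nlinarith
    have h8 := Real.exp_pos (-((2 + 3 * δ / 2) * L))
    nlinarith
  -- the two ends
  have hend : ∀ S : Finset ℕ, S ⊆ Icc Y X → 2 * L ^ 2 ≤ S.card → P.real (void E S) ≤ 8 * Real.exp (-(2 * L)) := by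
    intro S hS hc
    have h2 : 2 * L ≤ ∑ n ∈ S, pr n := by
      refine le_trans ?_ (sum_pr_ge hY hS hX3)
      rw [le_div_iff₀ (by linarith)]
      nlinarith
    have h3 := nvoid_le hY hk1 h0 hη1 hE hS (2 * L) (by linarith) h2
    have t1 : Real.exp (2.72 * (2 * L + 1) - k) ≤ Real.exp (-(2 * L)) := Real.exp_le_exp.2 (by nlinarith)
    have t2 : η * Real.exp (2 * L + 1) ≤ Real.exp 1 * Real.exp (-(2 * L)) := by
      calc η * Real.exp (2 * L + 1) ≤ Real.exp (-(4 * L)) * Real.exp (2 * L + 1) :=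
            mul_le_mul_of_nonneg_right h1 (Real.exp_pos _).le
        _ = Real.exp 1 * Real.exp (-(2 * L)) := by
            rw [← Real.exp_add, ← Real.exp_add]
            congr 1
            ring
    have := Real.exp_pos (-(2 * L))
    nlinarith
  have hend1 : P.real (void E (Ico Y M)) ≤ 8 * Real.exp (-(2 * L)) := by
    refine hend _ ?_ ?_
    · intro n hn
      rw [mem_Ico] at hn
      rw [mem_Icc]
      have : X / 4 ≤ X := Nat.div_le_self _ _
      omega
    · rw [Nat.card_Ico, Nat.cast_sub hYM]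
      nlinarith
  have hend2 : P.real (void E (Ioc (X / 2) X)) ≤ 8 * Real.exp (-(2 * L)) := by
    refine hend _ ?_ ?_
    · intro n hn
      rw [mem_Ioc] at hn
      rw [mem_Icc]
      omega
    · rw [Nat.card_Ioc, Nat.cast_sub (Nat.div_le_self _ _)]
      have e1 : ((X / 2 : ℕ) : ℝ) ≤ X / 2 := Nat.cast_div_le
      nlinarith
  have hsub : {ω | ¬ HasGapIn E Y X ((1 - δ) * L ^ 2) ω} ⊆
      {ω | ∀ j < N, ω ∉ void E (I j)} ∪ (void E (Ico Y M) ∪ void E (Ioc (X / 2) X)) := by
    intro ω hω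
    by_contra hcon
    simp only [Set.mem_union, not_or] at hcon
    obtain ⟨c1, c2, c3⟩ := hcon
    simp only [Set.mem_ofPred_eq] at c1
    push Not at c1
    obtain ⟨j, hj, hvoid⟩ := c1
    simp only [void, Set.mem_ofPred_eq] at c2 c3
    push Not at c2 c3
    obtain ⟨n₁, hn₁, hn₁E⟩ := c2
    obtain ⟨n₂, hn₂, hn₂E⟩ := c3
    rw [mem_Ico] at hn₁
    rw [mem_Ioc] at hn₂
    apply hω
    have e : (j + 1) * h ≤ N * h := Nat.mul_le_mul_right _ hj
    have e' : (j + 1) * h = j * h + h := by ring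
    refine gap_of_blocks E Y X (M + j * h) (M + (j + 1) * h) ω ⟨n₁, hn₁.1, ?_, hn₁E⟩ ⟨n₂, ?_, hn₂.2, hn₂E⟩ ?_ ?_ _ ?_
    · have : 0 ≤ j * h := Nat.zero_le _
      omega
    · omega
    · omega
    · intro n h1 h2
      exact hvoid n (by simp only [hI, mem_Ico]; exact ⟨h1, h2⟩)
    · push_cast
      linarith
  have hfin : P.real {ω | ¬ HasGapIn E Y X ((1 - δ) * L ^ 2) ω} ≤
      p0 + (8 * Real.exp (-(2 * L)) + 8 * Real.exp (-(2 * L))) := by
    refine (measureReal_mono hsub (measure_ne_top _ _)).trans ?_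
    refine (measureReal_union_le _ _).trans ?_
    refine add_le_add le_rfl ((measureReal_union_le _ _).trans (add_le_add hend1 hend2))
  have q3 : 16 * Real.exp (-(2 * L)) ≤ D / 4 := by
    have h2 : Real.exp (-(2 * L)) ≤ D * G := by
      rw [hD, hG, ← Real.exp_add]
      apply Real.exp_le_exp.2
      nlinarith
    have h3 : D * G ≤ D * (1 / 10 ^ 8) := mul_le_mul_of_nonneg_left hG2 hDpos.le
    linarith
  linarith

/-- A long initial part of the window contains elements of the random set. -/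
theorem void_start [IsProbabilityMeasure P] (hY : 3 ≤ Y) (hYX : Y * Y ≤ X) (hL1 : 10 ^ 3 ≤ Real.log X)
    (hk : 15 * Real.log X ≤ k) (h0 : 0 ≤ η) (h1 : η ≤ Real.exp (-(4 * Real.log X))) (hE : IsNearlyRandomSet P k Y X η E) :
    P.real (void E (Icc Y (X / 2))) ≤ 8 * Real.exp (-(2 * Real.log X)) := by
  set L := Real.log X with hLdef
  have hX0' : X ≠ 0 := by
    rintro rfl
    simp at hLdef
    linarith
  have hX0 : (0 : ℝ) < X := by exact_mod_cast Nat.pos_of_ne_zero hX0'
  have hXe : Real.exp L = X := Real.exp_log hX0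
  have hX3 : 3 ≤ X := by nlinarith
  have hk1 : 1 ≤ k := by
    have : (0 : ℝ) < k := by linarith
    exact_mod_cast this
  have hη1 : η ≤ 1 := h1.trans (by rw [Real.exp_le_one_iff]; linarith)
  have he : Real.exp 1 < 2.7182818286 := Real.exp_one_lt_d9
  have hS : Icc Y (X / 2) ⊆ Icc Y X := Icc_subset_Icc_right (Nat.div_le_self _ _)
  -- the number of elements
  have hYe : (Y : ℝ) ≤ Real.exp (L / 2) := by
    have h3 : (Y : ℝ) * Y ≤ Real.exp (L / 2) * Real.exp (L / 2) := by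
      rw [← Real.exp_add, add_halves, hXe]
      exact_mod_cast hYX
    exact (mul_self_le_mul_self_iff (Nat.cast_nonneg _) (Real.exp_pos _).le).2 h3
  have hc1 : ((X / 2 : ℕ) : ℝ) ≥ (X : ℝ) / 2 - 1 := by
    have : X < 2 * (X / 2) + 2 := by omega
    have h3 : (X : ℝ) < 2 * ((X / 2 : ℕ) : ℝ) + 2 := by exact_mod_cast this
    linarith
  have hbig : 4 * L ^ 2 + 4 ≤ Real.exp (L / 2) := by
    have h3 := Real.pow_div_factorial_le_exp (L / 2) (by linarith) 3
    have : (Nat.factorial 3 : ℝ) = 6 := by norm_num [Nat.factorial]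
    rw [this] at h3
    refine le_trans ?_ h3
    rw [le_div_iff₀ (by norm_num)]
    have e : (L / 2) ^ 3 = L ^ 2 * L / 8 := by ring
    rw [e]
    have h4 : (0 : ℝ) < L ^ 2 := by positivity
    nlinarith
  have hXsq : (X : ℝ) = Real.exp (L / 2) * Real.exp (L / 2) := by
    rw [← Real.exp_add, add_halves, hXe]
  have hcard : 2 * L ^ 2 ≤ ((Icc Y (X / 2)).card : ℝ) := by
    rw [Nat.card_Icc]
    have h3 : (X : ℝ) / 2 - 1 - Y ≤ ((X / 2 + 1 - Y : ℕ) : ℝ) := by
      have h4 : X / 2 + 1 ≤ (X / 2 + 1 - Y) + Y := by omega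
      have h5 : (((X / 2 : ℕ) : ℝ)) + 1 ≤ ((X / 2 + 1 - Y : ℕ) : ℝ) + Y := by exact_mod_cast h4
      linarith
    refine le_trans ?_ h3
    have h6 := Real.exp_pos (L / 2)
    have h7 : (4 : ℝ) ≤ Real.exp (L / 2) := by nlinarith [sq_nonneg L]
    nlinarith
  have h2 : 2 * L ≤ ∑ n ∈ Icc Y (X / 2), pr n := by
    refine le_trans ?_ (sum_pr_ge hY hS hX3)
    rw [le_div_iff₀ (by linarith)]
    nlinarith
  have h3 := nvoid_le hY hk1 h0 hη1 hE hS (2 * L) (by linarith) h2
  have t1 : Real.exp (2.72 * (2 * L + 1) - k) ≤ Real.exp (-(2 * L)) := Real.exp_le_exp.2 (by nlinarith)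
  have t2 : η * Real.exp (2 * L + 1) ≤ Real.exp 1 * Real.exp (-(2 * L)) := by
    calc η * Real.exp (2 * L + 1) ≤ Real.exp (-(4 * L)) * Real.exp (2 * L + 1) :=
          mul_le_mul_of_nonneg_right h1 (Real.exp_pos _).le
      _ = Real.exp 1 * Real.exp (-(2 * L)) := by
          rw [← Real.exp_add, ← Real.exp_add]
          congr 1
          ring
  have := Real.exp_pos (-(2 * L))
  nlinarith

end Pool.Agent.Q51.LW
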